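import Pool.Agent.H53.StrCount

/-!
# Bounded obstacles for stretched point configurations (MP_0ff5c6_co)

We prove that every obstacle for being stretched has at most 4333 points.
-/

namespace Pool.Agent.Results.MP_0ff5c6_co.BoundedObstacles

open Pool.Agent.H53.Str

/-- The plane. -/
abbrev Plane := EuclideanSpace ℝ (Fin 2)

/-- No three distinct points of `S` are collinear. -/
def GeneralPosition (S : Finset Plane) : Prop :=
  ∀ a ∈ S, ∀ b ∈ S, ∀ c ∈ S, a ≠ b → b ≠ c → a ≠ c → ¬ Collinear ℝ {a, b, c}

/-- `p` is a stretched path of `S`: an ordering `p 0, p 1, …` of all points of `S` such that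
`p 0` is a vertex of the convex hull of `S`, and for every `i` and all distinct `j, k > i + 1` the
points `p i` and `p (i+1)` are not strictly on opposite sides of the line through `p j`
and `p k`. -/
structure IsStretchedPath (S : Finset Plane) (p : Fin S.card → Plane) : Prop where
  injective : Function.Injective p
  range_eq : Set.range p = (S : Set Plane)
  hull_vertex : ∀ i : Fin S.card, (i : ℕ) = 0 →
    p i ∈ (convexHull ℝ (S : Set Plane)).extremePoints ℝ
  not_separated : ∀ i i' j k : Fin S.card, (i' : ℕ) = (i : ℕ) + 1 → i' < j → i' < k → j ≠ k →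
    ¬ (line[ℝ, p j, p k]).SOppSide (p i) (p i')

/-- `S` is stretched: it is in general position and has a stretched path. -/
def IsStretched (S : Finset Plane) : Prop :=
  GeneralPosition S ∧ ∃ p : Fin S.card → Plane, IsStretchedPath S p

/-- `S` is an obstacle: it is not stretched, but all its proper subsets are. -/
def IsObstacle (S : Finset Plane) : Prop :=
  ¬ IsStretched S ∧ ∀ T : Finset Plane, T ⊂ S → IsStretched T

section geometry

/-- the orientation determinant -/
def D (a b c : Plane) : ℝ := (b 0 - a 0) * (c 1 - a 1) - (b 1 - a 1) * (c 0 - a 0)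

lemma D_rot (a b c : Plane) : D a b c = D b c a := by unfold D; ring

lemma D_swap (a b c : Plane) : D a c b = - D a b c := by unfold D; ring

lemma D_left (a b : Plane) : D a b a = 0 := by unfold D; ring

lemma D_right (a b : Plane) : D a b b = 0 := by unfold D; ring

lemma D_lineMap (u v x y : Plane) (t : ℝ) :
    D u v (AffineMap.lineMap x y t) = (1 - t) * D u v x + t * D u v y := by
  unfold D
  simp only [AffineMap.lineMap_apply, vsub_eq_sub, vadd_eq_add, PiLp.add_apply, PiLp.smul_apply,
    PiLp.sub_apply, smul_eq_mul]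
  ring

lemma mem_line_iff {u v : Plane} (huv : u ≠ v) (p : Plane) :
    p ∈ line[ℝ, u, v] ↔ D u v p = 0 := by
  rw [mem_affineSpan_pair_iff_exists_lineMap_eq]
  constructor
  · rintro ⟨t, rfl⟩
    rw [D_lineMap, D_left, D_right]; ring
  · intro h
    by_cases h0 : u 0 = v 0
    · have h1 : u 1 ≠ v 1 := by
        intro h1
        apply huv
        ext i
        fin_cases i
        · exact h0
        · exact h1
      have h1' : v 1 - u 1 ≠ 0 := sub_ne_zero.2 (Ne.symm h1)
      refine ⟨(p 1 - u 1) / (v 1 - u 1), ?_⟩
      unfold D at h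
      ext i
      fin_cases i
      · simp only [AffineMap.lineMap_apply, vsub_eq_sub, vadd_eq_add, PiLp.add_apply,
          PiLp.smul_apply, PiLp.sub_apply, smul_eq_mul, Fin.zero_eta, Fin.isValue]
        have h2 : v 0 - u 0 = 0 := by rw [h0]; ring
        rw [h2] at h ⊢
        have h3 : p 0 - u 0 = 0 := by
          have h4 : (v 1 - u 1) * (p 0 - u 0) = 0 := by linarith
          rcases mul_eq_zero.1 h4 with h5 | h5
          · exact absurd h5 h1'
          · exact h5
        linarith
      · simp only [AffineMap.lineMap_apply, vsub_eq_sub, vadd_eq_add, PiLp.add_apply,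
          PiLp.smul_apply, PiLp.sub_apply, smul_eq_mul, Fin.mk_one, Fin.isValue]
        field_simp
        ring
    · have h1' : v 0 - u 0 ≠ 0 := sub_ne_zero.2 (Ne.symm h0)
      refine ⟨(p 0 - u 0) / (v 0 - u 0), ?_⟩
      unfold D at h
      ext i
      fin_cases i
      · simp only [AffineMap.lineMap_apply, vsub_eq_sub, vadd_eq_add, PiLp.add_apply,
          PiLp.smul_apply, PiLp.sub_apply, smul_eq_mul, Fin.zero_eta, Fin.isValue]
        field_simp
        ring
      · simp only [AffineMap.lineMap_apply, vsub_eq_sub, vadd_eq_add, PiLp.add_apply,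
          PiLp.smul_apply, PiLp.sub_apply, smul_eq_mul, Fin.mk_one, Fin.isValue]
        field_simp
        linarith

lemma collinear_iff {a b c : Plane} (hab : a ≠ b) :
    Collinear ℝ {a, b, c} ↔ D a b c = 0 := by
  rw [← mem_line_iff hab]
  constructor
  · intro h
    exact h.mem_affineSpan_of_mem_of_ne (by simp) (by simp) (by simp) hab
  · intro h
    have h1 : Collinear ℝ {c, a, b} := collinear_insert_of_mem_affineSpan_pair h
    have h2 : ({a, b, c} : Set Plane) = {c, a, b} := by
      ext x; simp only [Set.mem_insert_iff, Set.mem_singleton_iff]; tauto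
    rw [h2]; exact h1

lemma sOppSide_iff {u v : Plane} (huv : u ≠ v) (x y : Plane) :
    (line[ℝ, u, v]).SOppSide x y ↔ D u v x * D u v y < 0 := by
  unfold AffineSubspace.SOppSide
  rw [AffineSubspace.wOppSide_iff_exists_wbtw, mem_line_iff huv, mem_line_iff huv]
  constructor
  · rintro ⟨⟨p, hp, hw⟩, hx, hy⟩
    obtain ⟨t, ⟨ht0, ht1⟩, rfl⟩ := hw
    rw [mem_line_iff huv, D_lineMap] at hp
    by_contra hcon
    push Not at hcon
    rcases lt_or_gt_of_ne hx with h1 | h1
    · have h2 : D u v y < 0 := by
        rcases lt_or_gt_of_ne hy with h2 | h2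
        · exact h2
        · nlinarith
      rcases eq_or_lt_of_le ht0 with h3 | h3
      · rw [← h3] at hp; apply hx; linarith
      · nlinarith [mul_neg_of_pos_of_neg h3 h2]
    · have h2 : 0 < D u v y := by
        rcases lt_or_gt_of_ne hy with h2 | h2
        · nlinarith
        · exact h2
      rcases eq_or_lt_of_le ht0 with h3 | h3
      · rw [← h3] at hp; apply hx; linarith
      · nlinarith [mul_pos h3 h2]
  · intro h
    have hx : D u v x ≠ 0 := by rintro h1; rw [h1] at h; simp at h
    have hy : D u v y ≠ 0 := by rintro h1; rw [h1] at h; simp at h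
    refine ⟨?_, hx, hy⟩
    have hd : D u v x - D u v y ≠ 0 := by
      intro h1
      have : D u v x = D u v y := by linarith
      rw [this] at h
      nlinarith [mul_self_nonneg (D u v y)]
    refine ⟨AffineMap.lineMap x y (D u v x / (D u v x - D u v y)), ?_, ?_⟩
    · rw [mem_line_iff huv, D_lineMap]
      field_simp
      ring
    · refine ⟨_, ⟨?_, ?_⟩, rfl⟩
      · rcases lt_or_gt_of_ne hx with h1 | h1
        · have h2 : 0 < D u v y := by nlinarith
          apply div_nonneg_of_nonpos <;> linarith
        · have h2 : D u v y < 0 := by nlinarith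
          apply div_nonneg <;> linarith
      · rcases lt_or_gt_of_ne hx with h1 | h1
        · have h2 : 0 < D u v y := by nlinarith
          rw [div_le_one_of_neg (by linarith)]
          linarith
        · have h2 : D u v y < 0 := by nlinarith
          rw [div_le_one (by linarith)]
          linarith

/-- an extreme point is not inside a triangle -/
lemma not_inside_of_extreme {T : Finset Plane} {w a b c : Plane}
    (hw : w ∈ (convexHull ℝ (T : Set Plane)).extremePoints ℝ) (ha : a ∈ T) (hb : b ∈ T)
    (hc : c ∈ T) (h1 : 0 < D w a b) (h2 : 0 < D w b c) : ¬ 0 < D w c a := by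
  intro h3
  have haw : a ≠ w := by
    rintro rfl
    rw [D_rot, D_left] at h1
    exact lt_irrefl _ h1
  have hsum : 0 < D w c a + D w a b := by linarith
  have ha' : a ∈ convexHull ℝ (T : Set Plane) := subset_convexHull ℝ _ ha
  have hb' : b ∈ convexHull ℝ (T : Set Plane) := subset_convexHull ℝ _ hb
  have hc' : c ∈ convexHull ℝ (T : Set Plane) := subset_convexHull ℝ _ hc
  have hy : (D w c a / (D w c a + D w a b)) • b + (D w a b / (D w c a + D w a b)) • c ∈
      convexHull ℝ (T : Set Plane) := by
    apply (convex_convexHull ℝ (T : Set Plane)) hb' hc'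
    · positivity
    · positivity
    · field_simp
  have hs : 0 < D w a b + D w b c + D w c a := by linarith
  have hid : D w a b + D w b c + D w c a = D a b c := by unfold D; ring
  apply haw
  apply hw.2 ha' hy
  refine ⟨D w b c / (D w a b + D w b c + D w c a),
    (D w c a + D w a b) / (D w a b + D w b c + D w c a), by positivity, by positivity, ?_, ?_⟩
  · field_simp
    ring
  · have e0 : D w b c * (a 0) + D w c a * (b 0) + D w a b * (c 0)
        = (D w a b + D w b c + D w c a) * (w 0) := by unfold D; ring
    have e1 : D w b c * (a 1) + D w c a * (b 1) + D w a b * (c 1)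
        = (D w a b + D w b c + D w c a) * (w 1) := by unfold D; ring
    have hs' := hs.ne'
    have hsum' := hsum.ne'
    ext i
    fin_cases i
    · simp only [PiLp.add_apply, PiLp.smul_apply, smul_eq_mul, Fin.zero_eta, Fin.isValue]
      field_simp
      linarith
    · simp only [PiLp.add_apply, PiLp.smul_apply, smul_eq_mul, Fin.mk_one, Fin.isValue]
      field_simp
      linarith

/-- supporting functional gives an extreme point -/
lemma extreme_of_functional {T : Finset Plane} {w : Plane} (hw : w ∈ T) (p q : ℝ)
    (hg : ∀ x ∈ T, x ≠ w → 0 < p * (x 0 - w 0) + q * (x 1 - w 1)) :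
    w ∈ (convexHull ℝ (T : Set Plane)).extremePoints ℝ := by
  have hconv : Convex ℝ {x : Plane | x = w ∨ 0 < p * (x 0 - w 0) + q * (x 1 - w 1)} := by
    intro x hx y hy a b ha hb hab
    have hlin : p * ((a • x + b • y : Plane) 0 - w 0) + q * ((a • x + b • y : Plane) 1 - w 1)
        = a * (p * (x 0 - w 0) + q * (x 1 - w 1)) + b * (p * (y 0 - w 0) + q * (y 1 - w 1)) := by
      simp only [PiLp.add_apply, PiLp.smul_apply, smul_eq_mul]
      have hb' : b = 1 - a := by linarith
      rw [hb']; ring
    have hz : p * (w 0 - w 0) + q * (w 1 - w 1) = 0 := by ring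
    rcases eq_or_lt_of_le ha with ha0 | ha0
    · have hb1 : b = 1 := by linarith
      rw [← ha0, hb1, zero_smul, one_smul, zero_add]
      exact hy
    · rcases eq_or_lt_of_le hb with hb0 | hb0
      · have ha1 : a = 1 := by linarith
        rw [← hb0, ha1, zero_smul, one_smul, add_zero]
        exact hx
      · rcases hx with hx | hx <;> rcases hy with hy | hy
        · left
          rw [hx, hy, ← add_smul, hab, one_smul]
        · right
          rw [hlin, hx, hz]
          have := mul_pos hb0 hy
          linarith
        · right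
          rw [hlin, hy, hz]
          have := mul_pos ha0 hx
          linarith
        · right
          rw [hlin]
          have := mul_pos ha0 hx
          have := mul_pos hb0 hy
          linarith
  have hsub : convexHull ℝ (T : Set Plane) ⊆
      {x : Plane | x = w ∨ 0 < p * (x 0 - w 0) + q * (x 1 - w 1)} := by
    apply convexHull_min _ hconv
    intro x hx
    by_cases h : x = w
    · exact Or.inl h
    · exact Or.inr (hg x hx h)
  rw [mem_extremePoints_iff_left]
  refine ⟨subset_convexHull ℝ _ hw, ?_⟩
  intro x hx y hy hxy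
  obtain ⟨a, b, ha, hb, hab, hE⟩ := hxy
  have hlin : p * (w 0 - w 0) + q * (w 1 - w 1)
      = a * (p * (x 0 - w 0) + q * (x 1 - w 1)) + b * (p * (y 0 - w 0) + q * (y 1 - w 1)) := by
    have e0 : w 0 = a * x 0 + b * y 0 := by
      rw [← hE]; simp only [PiLp.add_apply, PiLp.smul_apply, smul_eq_mul]
    have e1 : w 1 = a * x 1 + b * y 1 := by
      rw [← hE]; simp only [PiLp.add_apply, PiLp.smul_apply, smul_eq_mul]
    have hb' : b = 1 - a := by linarith
    have e2 : a * (p * (x 0 - w 0) + q * (x 1 - w 1)) + b * (p * (y 0 - w 0) + q * (y 1 - w 1))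
        = p * ((a * x 0 + b * y 0) - (a + b) * w 0) + q * ((a * x 1 + b * y 1) - (a + b) * w 1) := by
      ring
    rw [e2, ← e0, ← e1, hab]
    ring
  by_contra hxw
  have hx' : 0 < p * (x 0 - w 0) + q * (x 1 - w 1) := by
    rcases hsub hx with h | h
    · exact absurd h hxw
    · exact h
  have hy' : 0 ≤ p * (y 0 - w 0) + q * (y 1 - w 1) := by
    rcases hsub hy with h | h
    · rw [h]; ring_nf; exact le_refl _
    · exact h.le
  have h1 := mul_pos ha hx'
  have h2 := mul_nonneg hb.le hy'
  have h3 : p * (w 0 - w 0) + q * (w 1 - w 1) = 0 := by ring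
  linarith

/-- a point not inside any triangle is extreme -/
lemma extreme_of_not_inside {T : Finset Plane} (hT : GeneralPosition T) {w : Plane} (hw : w ∈ T)
    (hH : ∀ a ∈ T, ∀ b ∈ T, ∀ c ∈ T, 0 < D w a b → 0 < D w b c → ¬ 0 < D w c a) :
    w ∈ (convexHull ℝ (T : Set Plane)).extremePoints ℝ := by
  classical
  have hD : ∀ a ∈ T, ∀ b ∈ T, a ≠ w → b ≠ w → a ≠ b → D w a b ≠ 0 := by
    intro a ha b hb h1 h2 h3
    rw [Ne, ← collinear_iff (Ne.symm h1)]
    exact hT w hw a ha b hb (Ne.symm h1) h3 (Ne.symm h2)
  have htrans : ∀ a ∈ T, ∀ b ∈ T, ∀ c ∈ T, a ≠ w → c ≠ w → a ≠ c → 0 < D w a b → 0 < D w b c →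
      0 < D w a c := by
    intro a ha b hb c hc h1 h2 h3 h4 h5
    have h6 := hH a ha b hb c hc h4 h5
    have h7 := hD a ha c hc h1 h2 h3
    rw [D_swap w a c] at h6
    rcases lt_or_gt_of_ne h7 with h8 | h8
    · exfalso; apply h6; linarith
    · exact h8
  have hmin : ∀ A : Finset Plane, A ⊆ T.erase w → A.Nonempty →
      ∃ m ∈ A, ∀ b ∈ A, b ≠ m → 0 < D w m b := by
    intro A
    induction A using Finset.induction_on with
    | empty => intro _ h; exact absurd h (by simp)
    | insert a A haA ih =>
      intro hAT _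
      have haT := Finset.mem_erase.1 (hAT (Finset.mem_insert_self a A))
      rcases A.eq_empty_or_nonempty with hA | hA
      · refine ⟨a, Finset.mem_insert_self _ _, ?_⟩
        intro b hb hba
        rw [hA] at hb
        simp at hb
        exact absurd hb hba
      · obtain ⟨m, hm, hmm⟩ := ih ((Finset.subset_insert a A).trans hAT) hA
        have hmT := Finset.mem_erase.1 (hAT (Finset.mem_insert_of_mem hm))
        have ham : a ≠ m := by rintro rfl; exact haA hm
        rcases lt_or_gt_of_ne (hD a haT.2 m hmT.2 haT.1 hmT.1 ham) with h1 | h1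
        · refine ⟨m, Finset.mem_insert_of_mem hm, ?_⟩
          intro b hb hbm
          rcases Finset.mem_insert.1 hb with h2 | h2
          · rw [h2, D_swap w a m]; linarith
          · exact hmm b h2 hbm
        · refine ⟨a, Finset.mem_insert_self _ _, ?_⟩
          intro b hb hba
          rcases Finset.mem_insert.1 hb with h2 | h2
          · exact absurd h2 hba
          · have hbT := Finset.mem_erase.1 (hAT (Finset.mem_insert_of_mem h2))
            by_cases hbm : b = m
            · rw [hbm]; exact h1
            · exact htrans a haT.2 m hmT.2 b hbT.2 haT.1 hbT.1 (Ne.symm hba) h1 (hmm b h2 hbm)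
  rcases (T.erase w).eq_empty_or_nonempty with hE | hE
  · apply extreme_of_functional hw 0 0
    intro x hx hxw
    have : x ∈ T.erase w := Finset.mem_erase.2 ⟨hxw, hx⟩
    rw [hE] at this
    simp at this
  · obtain ⟨m, hm, hmm⟩ := hmin (T.erase w) (Finset.Subset.refl _) hE
    have hmT := Finset.mem_erase.1 hm
    have hC : ∀ᶠ C : ℝ in Filter.atTop, ∀ b ∈ (T.erase w).erase m,
        0 < C * D w m b + ((m 0 - w 0) * (b 0 - w 0) + (m 1 - w 1) * (b 1 - w 1)) := by
      rw [Filter.eventually_all_finset]
      intro b hb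
      have hb' := Finset.mem_erase.1 hb
      have hpos := hmm b hb'.2 hb'.1
      filter_upwards [Filter.eventually_gt_atTop
        (-((m 0 - w 0) * (b 0 - w 0) + (m 1 - w 1) * (b 1 - w 1)) / D w m b)] with C hC
      rw [div_lt_iff₀ hpos] at hC
      linarith
    obtain ⟨C, hC⟩ := hC.exists
    apply extreme_of_functional hw (-(C * (m 1 - w 1)) + (m 0 - w 0))
      (C * (m 0 - w 0) + (m 1 - w 1))
    intro x hx hxw
    by_cases hxm : x = m
    · rw [hxm]
      have hne : m 0 - w 0 ≠ 0 ∨ m 1 - w 1 ≠ 0 := by
        by_contra hcon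
        push Not at hcon
        apply hmT.1
        ext i
        fin_cases i
        · simp only [Fin.zero_eta, Fin.isValue]; linarith [hcon.1]
        · simp only [Fin.mk_one, Fin.isValue]; linarith [hcon.2]
      have : (-(C * (m 1 - w 1)) + (m 0 - w 0)) * (m 0 - w 0) +
          (C * (m 0 - w 0) + (m 1 - w 1)) * (m 1 - w 1)
          = (m 0 - w 0) * (m 0 - w 0) + (m 1 - w 1) * (m 1 - w 1) := by ring
      rw [this]
      rcases hne with h | h
      · have := mul_self_pos.2 h
        have := mul_self_nonneg (m 1 - w 1)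
        linarith
      · have := mul_self_pos.2 h
        have := mul_self_nonneg (m 0 - w 0)
        linarith
    · have h1 := hC x (Finset.mem_erase.2 ⟨hxm, Finset.mem_erase.2 ⟨hxw, hx⟩⟩)
      have : (-(C * (m 1 - w 1)) + (m 0 - w 0)) * (x 0 - w 0) +
          (C * (m 0 - w 0) + (m 1 - w 1)) * (x 1 - w 1)
          = C * D w m x + ((m 0 - w 0) * (x 0 - w 0) + (m 1 - w 1) * (x 1 - w 1)) := by
        unfold D; ring
      rw [this]
      exact h1

end geometry

section transfer

variable {S : Finset Plane}

/-- counterclockwise predicate on the points of `S` -/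
def OS (S : Finset Plane) (a b c : {x // x ∈ S}) : Prop := 0 < D (a : Plane) b c

lemma ax_OS (hS : GeneralPosition S) : Ax (OS S) where
  rot := by
    intro a b c h
    unfold OS at *
    rw [← D_rot]; exact h
  asym := by
    intro a b c h
    unfold OS at *
    rw [D_swap (a : Plane) b c]; linarith
  tot := by
    intro a b c hab hbc hac
    unfold OS
    rw [D_swap (a : Plane) b c]
    have hab' : (a : Plane) ≠ b := fun h => hab (Subtype.ext h)
    have hbc' : (b : Plane) ≠ c := fun h => hbc (Subtype.ext h)
    have hac' : (a : Plane) ≠ c := fun h => hac (Subtype.ext h)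
    have h1 : D (a : Plane) b c ≠ 0 := by
      rw [Ne, ← collinear_iff hab']
      exact hS a a.2 b b.2 c c.2 hab' hbc' hac'
    rcases lt_or_gt_of_ne h1 with h2 | h2
    · right; linarith
    · left; exact h2

/-- a stretched order of the points gives a stretched path -/
lemma stretched_of_good (hS : GeneralPosition S) {w : {x // x ∈ S}}
    (hg : Good (OS S) (Finset.univ : Finset {x // x ∈ S}) w) : IsStretched S := by
  classical
  refine ⟨hS, ?_⟩
  have hax := ax_OS hS
  obtain ⟨q, hq⟩ := hg
  have hcard : (Finset.univ : Finset {x // x ∈ S}).card = S.card := by simp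
  obtain ⟨s, _, hs2⟩ := enumerate q w S.card (Finset.univ : Finset {x // x ∈ S}) hq.inj
    (by rw [hcard])
  have hsinj : ∀ i < S.card, ∀ j < S.card, s i = s j → i = j := by
    intro i hi j hj hij
    rcases lt_trichotomy i j with h1 | h1 | h1
    · have := hs2 i hi j hj h1
      rw [hij] at this; omega
    · exact h1
    · have := hs2 j hj i hi h1
      rw [hij] at this; omega
  have hinj : Function.Injective (fun i : Fin S.card => s i) := by
    intro i j hij
    exact Fin.ext (hsinj i i.2 j j.2 hij)
  have hsurj : Function.Surjective (fun i : Fin S.card => s i) := by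
    have hb : Function.Bijective (fun i : Fin S.card => s i) := by
      rw [Fintype.bijective_iff_injective_and_card]
      exact ⟨hinj, by simp⟩
    exact hb.2
  refine ⟨fun i => (s i : Plane), ?_, ?_, ?_, ?_⟩
  · intro i j hij
    exact hinj (Subtype.ext hij)
  · ext x
    simp only [Set.mem_range, Finset.mem_coe]
    constructor
    · rintro ⟨i, rfl⟩
      exact (s i).2
    · intro hx
      obtain ⟨i, hi⟩ := hsurj ⟨x, hx⟩
      exact ⟨i, congrArg Subtype.val hi⟩
  · intro i hi
    have hsw : s i = w := by
      obtain ⟨j, hj⟩ := hsurj w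
      by_contra hne
      have h1 := hq.first (s i) (Finset.mem_univ _) hne
      have hij : (i : ℕ) < j := by
        rw [hi]
        rcases Nat.eq_zero_or_pos (j : ℕ) with h2 | h2
        · exfalso
          apply hne
          have : i = j := Fin.ext (by rw [hi, h2])
          rw [this]; exact hj
        · exact h2
      have h3 := hs2 i i.2 j j.2 hij
      simp only at hj
      rw [hj] at h3
      omega
    show (s i : Plane) ∈ _
    rw [hsw]
    apply extreme_of_not_inside hS w.2
    intro a ha b hb c hc h1 h2
    exact hq.hull ⟨a, ha⟩ (Finset.mem_univ _) ⟨b, hb⟩ (Finset.mem_univ _) ⟨c, hc⟩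
      (Finset.mem_univ _) h1 h2
  · intro i i' j k hi' hj hk hjk hopp
    have hjk' : (s j : Plane) ≠ s k := by
      intro h
      exact hjk (hinj (Subtype.ext h))
    rw [sOppSide_iff hjk'] at hopp
    have hj' : (i' : ℕ) < j := hj
    have hk' : (i' : ℕ) < k := hk
    have hst : OS S (s i) (s j) (s k) ↔ OS S (s i') (s j) (s k) :=
      hq.st hax (Finset.mem_univ _) (Finset.mem_univ _) (Finset.mem_univ _) (Finset.mem_univ _)
        (hs2 i i.2 j j.2 (by omega)) (hs2 i i.2 k k.2 (by omega))
        (hs2 i' i'.2 j j.2 hj') (hs2 i' i'.2 k k.2 hk')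
    unfold OS at hst
    rw [D_rot (s i : Plane), D_rot (s i' : Plane)] at hst
    rcases lt_or_ge 0 (D (s j : Plane) (s k) (s i)) with h1 | h1
    · have h2 := hst.1 h1
      nlinarith [mul_pos h1 h2]
    · have h2 : ¬ 0 < D (s j : Plane) (s k) (s i') := fun h3 => absurd (hst.2 h3) (not_lt.2 h1)
      push Not at h2
      nlinarith [mul_nonneg_of_nonpos_of_nonpos h1 h2]

/-- the sign condition along a stretched path -/
lemma path_sign {T : Finset Plane} (hT : GeneralPosition T) {p : Fin T.card → Plane}
    (hp : IsStretchedPath T p) : ∀ (m : ℕ) (i j k o : Fin T.card), (i : ℕ) = m → (o : ℕ) = 0 →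
      i < j → i < k → j ≠ k → (0 < D (p i) (p j) (p k) ↔ 0 < D (p o) (p j) (p k)) := by
  have hmem : ∀ i, p i ∈ T := by
    intro i
    have : p i ∈ (T : Set Plane) := by rw [← hp.range_eq]; exact ⟨i, rfl⟩
    exact this
  have hne : ∀ i j, i ≠ j → p i ≠ p j := fun i j hij h => hij (hp.injective h)
  have hD : ∀ i j k : Fin T.card, i ≠ j → j ≠ k → i ≠ k → D (p i) (p j) (p k) ≠ 0 := by
    intro i j k hij hjk hik
    rw [Ne, ← collinear_iff (hne i j hij)]
    exact hT _ (hmem i) _ (hmem j) _ (hmem k) (hne i j hij) (hne j k hjk) (hne i k hik)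
  intro m
  induction m with
  | zero =>
    intro i j k o hi ho _ _ _
    have : i = o := Fin.ext (by rw [hi, ho])
    rw [this]
  | succ m ih =>
    intro i j k o hi ho hij hik hjk
    have hm : m < T.card := by have := i.2; omega
    have hij' : (i : ℕ) < j := hij
    have hik' : (i : ℕ) < k := hik
    have h1 := ih ⟨m, hm⟩ j k o rfl ho (by show m < (j : ℕ); omega) (by show m < (k : ℕ); omega)
      hjk
    rw [← h1]
    have h2 := hp.not_separated ⟨m, hm⟩ i j k hi hij hik hjk
    rw [sOppSide_iff (hne j k hjk)] at h2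
    have h3 : D (p j) (p k) (p i) ≠ 0 := hD j k i hjk (Ne.symm (ne_of_lt hik))
      (Ne.symm (ne_of_lt hij))
    have hmi : (⟨m, hm⟩ : Fin T.card) < i := by show m < (i : ℕ); omega
    have h4 : D (p j) (p k) (p ⟨m, hm⟩) ≠ 0 := hD j k ⟨m, hm⟩ hjk
      (Ne.symm (ne_of_lt (lt_trans hmi hik))) (Ne.symm (ne_of_lt (lt_trans hmi hij)))
    rw [D_rot (p i), D_rot (p ⟨m, hm⟩)]
    push Not at h2
    constructor
    · intro h5
      rcases lt_or_gt_of_ne h4 with h6 | h6
      · nlinarith [mul_neg_of_neg_of_pos h6 h5]
      · exact h6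
    · intro h5
      rcases lt_or_gt_of_ne h3 with h6 | h6
      · nlinarith [mul_neg_of_pos_of_neg h5 h6]
      · exact h6

/-- a stretched path gives a stretched order -/
lemma good_of_stretched (T : Finset Plane)
    (Y : Finset {x // x ∈ S}) (hTS : T ⊆ S)
    (hY : ∀ x : {x // x ∈ S}, x ∈ Y ↔ (x : Plane) ∈ T) (hne : T.Nonempty)
    (hT : IsStretched T) : ∃ w, Good (OS S) Y w := by
  classical
  obtain ⟨hgp, p, hp⟩ := hT
  have hmem : ∀ i, p i ∈ T := by
    intro i
    have : p i ∈ (T : Set Plane) := by rw [← hp.range_eq]; exact ⟨i, rfl⟩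
    exact this
  have hcard : 0 < T.card := hne.card_pos
  let o : Fin T.card := ⟨0, hcard⟩
  have hidx : ∀ x : {x // x ∈ S}, ∃ k : ℕ, x ∈ Y → ∃ i : Fin T.card, (i : ℕ) = k ∧ p i = x := by
    intro x
    by_cases hx : x ∈ Y
    · have h1 : (x : Plane) ∈ (T : Set Plane) := (hY x).1 hx
      rw [← hp.range_eq] at h1
      obtain ⟨i, hi⟩ := h1
      exact ⟨i, fun _ => ⟨i, rfl, hi⟩⟩
    · exact ⟨0, fun h => absurd h hx⟩
  choose q hq using hidx
  let w : {x // x ∈ S} := ⟨p o, hTS (hmem o)⟩
  have hwY : w ∈ Y := (hY w).2 (hmem o)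
  have hqw : q w = 0 := by
    obtain ⟨i, hi, hpi⟩ := hq w hwY
    have : i = o := hp.injective hpi
    rw [← hi, this]
  refine ⟨w, q, hwY, ?_, ?_, ?_, ?_⟩
  · intro a ha b hb c hc h1 h2
    exact not_inside_of_extreme (hp.hull_vertex o rfl) ((hY a).1 ha) ((hY b).1 hb) ((hY c).1 hc)
      h1 h2
  · intro a ha b hb hab
    obtain ⟨i, hi, hpi⟩ := hq a ha
    obtain ⟨j, hj, hpj⟩ := hq b hb
    have : i = j := Fin.ext (by rw [hi, hj, hab])
    apply Subtype.ext
    rw [← hpi, ← hpj, this]
  · intro y hy hyw
    rw [hqw]
    rcases Nat.eq_zero_or_pos (q y) with h1 | h1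
    · exfalso
      apply hyw
      obtain ⟨i, hi, hpi⟩ := hq y hy
      have : i = o := Fin.ext (by rw [hi, h1])
      apply Subtype.ext
      rw [← hpi, this]
    · exact h1
  · intro x hx x' hx' b hb c hc h1 h2 h3
    obtain ⟨i, hi, hpi⟩ := hq x hx
    obtain ⟨i', hi', hpi'⟩ := hq x' hx'
    obtain ⟨j, hj, hpj⟩ := hq b hb
    obtain ⟨k, hk, hpk⟩ := hq c hc
    have hjk : j ≠ k := by
      rintro rfl; omega
    have e1 := path_sign hgp hp i i j k o rfl rfl (by show (i : ℕ) < j; omega)
      (by show (i : ℕ) < k; omega) hjk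
    have e2 := path_sign hgp hp i' i' j k o rfl rfl (by show (i' : ℕ) < j; omega)
      (by show (i' : ℕ) < k; omega) hjk
    unfold OS
    rw [← hpi, ← hpi', ← hpj, ← hpk, e1, e2]
    exact fun h => h

end transfer

/-- **Stretched configurations have bounded obstacles**: every obstacle for being stretched has
at most 4333 points. -/
theorem result : ∀ S : Finset Plane, IsObstacle S → S.card ≤ 4333 := by
  classical
  intro S hS
  obtain ⟨hnot, hsub⟩ := hS
  by_cases hgp : GeneralPosition S
  · by_cases hcard : S.card ≤ 1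
    · omega
    · have hax := ax_OS hgp
      have h1 := obstacle_bound hax (Finset.univ : Finset {x // x ∈ S})
        (fun w hg => hnot (stretched_of_good hgp hg))
        (by
          intro v _
          apply good_of_stretched (S.erase (v : Plane)) _ (Finset.erase_subset _ _)
          · intro x
            rw [Finset.mem_erase, Finset.mem_erase]
            constructor
            · rintro ⟨h1, _⟩
              exact ⟨fun h => h1 (Subtype.ext h), x.2⟩
            · rintro ⟨h1, _⟩
              exact ⟨fun h => h1 (congrArg Subtype.val h), Finset.mem_univ _⟩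
          · apply Finset.card_pos.1
            rw [Finset.card_erase_of_mem v.2]
            omega
          · exact hsub _ (Finset.erase_ssubset v.2))
      simpa using h1
  · unfold GeneralPosition at hgp
    push Not at hgp
    obtain ⟨a, ha, b, hb, c, hc, hab, hbc, hac, hcol⟩ := hgp
    by_contra hcard
    push Not at hcard
    have hT : ({a, b, c} : Finset Plane) ⊂ S := by
      rw [Finset.ssubset_iff_subset_ne]
      constructor
      · intro x hx
        simp only [Finset.mem_insert, Finset.mem_singleton] at hx
        rcases hx with rfl | rfl | rfl <;> assumption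
      · intro h
        have h3 : ({a, b, c} : Finset Plane).card ≤ 3 := Finset.card_le_three
        rw [h] at h3
        omega
    have := (hsub _ hT).1 a (by simp) b (by simp) c (by simp) hab hbc hac
    exact this hcol

end Pool.Agent.Results.MP_0ff5c6_co.BoundedObstacles
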